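import Pool.Agent.Lib.MP_ac4d2b_ag_HF.Link

/-!
MP_ac4d2b_ag: ideals of distinct points.
-/

set_option autoImplicit false

namespace Pool.Agent.HilbPts

open MvPolynomial Pool.Agent.MPac4d2b Pool.Agent.MPac4d2b.IRRAux Matrix

noncomputable section

/-- the point of the parameter `q` -/
def pq {n : ℕ} (q : Par (Fin n) → ℂ) : Idx n → ℂ :=
  Sum.elim (pt fun i => qg q * diagonal (qd q i) * (qg q).adjugate) (qv q)

/-- the points of affine space of the parameter `q` -/
def pts {n : ℕ} (q : Par (Fin n) → ℂ) (a : Fin n) : Fin 3 → ℂ := fun i => (qg q).det * qd q i a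

theorem pres_pts {n : ℕ} (q : Par (Fin n) → ℂ) (hq : eval q (bad (K := ℂ) (ι := Fin n)) ≠ 0) :
    Function.Injective (pts q) ∧ Pres (vanishingIdeal ℂ (Set.range (pts q))) (pq q) := by
  rw [eval_bad] at hq
  have h1 : (qg q).det ≠ 0 := left_ne_zero_of_mul (left_ne_zero_of_mul hq)
  have h2 := right_ne_zero_of_mul (left_ne_zero_of_mul hq)
  have h3 := right_ne_zero_of_mul hq
  set g := qg q with hg
  set δ := g.det with hδ
  set h : Matrix (Fin n) (Fin n) ℂ := δ⁻¹ • g.adjugate with hh
  have hhg : h * g = 1 := by
    rw [hh, smul_mul_assoc, adjugate_mul, smul_smul, inv_mul_cancel₀ h1, one_smul]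
  have hgh : g * h = 1 := mul_eq_one_comm.mp hhg
  have hd0 : Function.Injective (qd q 0) := by
    intro a b hab
    by_contra hne
    exact (Finset.prod_ne_zero_iff.mp ((Finset.prod_ne_zero_iff.mp h2) a (Finset.mem_univ a)) b
      (Finset.mem_erase.mpr ⟨fun h => hne h.symm, Finset.mem_univ b⟩)) (sub_eq_zero.mpr hab)
  have hinj0 : Function.Injective fun a => pts q a 0 := by
    intro a b hab
    exact hd0 (mul_left_cancel₀ h1 hab)
  have hT : ∀ i, g * diagonal (qd q i) * g.adjugate =
      g * diagonal (fun a => pts q a i) * h := by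
    intro i
    have : diagonal (fun a => pts q a i) = δ • diagonal (qd q i) := by
      ext a b
      by_cases hab : a = b
      · subst hab; simp [pts, hδ, hg]
      · simp [hab]
    rw [this, hh]
    simp only [Matrix.mul_smul, Matrix.smul_mul, smul_smul]
    rw [inv_mul_cancel₀ h1, one_smul]
  have hmt : ∀ i, mt (pq q) i = g * diagonal (fun a => pts q a i) * h := by
    intro i
    rw [← hT]
    rfl
  have hvc : vc (pq q) = qv q := rfl
  set u : Fin n → ℂ := h *ᵥ qv q with hu
  have hu0 : ∀ a, u a ≠ 0 := by
    intro a
    rw [hu, hh, smul_mulVec, Pi.smul_apply, smul_eq_mul]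
    exact mul_ne_zero (inv_ne_zero h1) (Finset.prod_ne_zero_iff.mp h3 a (Finset.mem_univ a))
  have hgu : qv q = g *ᵥ u := by
    rw [hu, mulVec_mulVec, hgh, one_mulVec]
  have hwv : ∀ m : Fin 3 →₀ ℕ, wv (pq q) m =
      g *ᵥ fun a => eval (pts q a) (monomial m (1 : ℂ)) * u a := by
    intro m
    have hp : ∀ (i : Fin 3) (k : ℕ), (g * diagonal (fun a => pts q a i) * h) ^ k =
        g * diagonal (fun a => pts q a i ^ k) * h := by
      intro i k
      induction k with
      | zero =>
        have h0 : (diagonal fun a => pts q a i ^ 0) = (1 : Matrix (Fin n) (Fin n) ℂ) := by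
          simp only [pow_zero, diagonal_one]
        rw [pow_zero, h0, mul_one, hgh]
      | succ k ih =>
        have h0 : (diagonal fun a => pts q a i ^ (k + 1)) =
            (diagonal fun a => pts q a i ^ k) * diagonal fun a => pts q a i := by
          rw [diagonal_mul_diagonal]
          simp only [pow_succ]
        rw [pow_succ, ih, h0]
        calc g * (diagonal fun a => pts q a i ^ k) * h * (g * (diagonal fun a => pts q a i) * h)
            = g * (diagonal fun a => pts q a i ^ k) * (h * g) *
              (diagonal fun a => pts q a i) * h := by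
              simp only [Matrix.mul_assoc]
          _ = _ := by
              rw [hhg]
              simp only [Matrix.mul_assoc, Matrix.one_mul]
    have hall : (g * diagonal (fun a => pts q a 0 ^ m 0) * h) *
        (g * diagonal (fun a => pts q a 1 ^ m 1) * h) *
        (g * diagonal (fun a => pts q a 2 ^ m 2) * h) * g =
        g * (diagonal (fun a => pts q a 0 ^ m 0) * diagonal (fun a => pts q a 1 ^ m 1) *
          diagonal (fun a => pts q a 2 ^ m 2)) := by
      calc _ = g * diagonal (fun a => pts q a 0 ^ m 0) * (h * g) *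
            diagonal (fun a => pts q a 1 ^ m 1) * (h * g) *
            diagonal (fun a => pts q a 2 ^ m 2) * (h * g) := by
            simp only [Matrix.mul_assoc]
        _ = _ := by
            rw [hhg]
            simp only [Matrix.mul_assoc, Matrix.mul_one]
    rw [wv, hmt, hmt, hmt, hvc, hgu, mulVec_mulVec, hp, hp, hp, hall, diagonal_mul_diagonal,
      diagonal_mul_diagonal, ← mulVec_mulVec]
    congr 1
    funext a
    rw [mulVec_diagonal, eval_monomial, Finsupp.prod_fintype _ _ (fun i => pow_zero _),
      Fin.prod_univ_three, one_mul]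
  refine ⟨fun a b hab => hinj0 (congrFun hab 0), ?_⟩
  let ρ : R3 →ₗ[ℂ] (Fin n → ℂ) :=
    { toFun := fun f => g *ᵥ fun a => eval (pts q a) f * u a
      map_add' := fun f f' => by
        rw [← mulVec_add]
        congr 1
        funext a
        rw [map_add, add_mul]
        rfl
      map_smul' := fun c f => by
        rw [RingHom.id_apply, ← mulVec_smul]
        congr 1
        funext a
        rw [smul_eval, mul_assoc]
        rfl }
  have hρ : ∀ f, ρ f = g *ᵥ fun a => eval (pts q a) f * u a := fun f => rfl
  refine ⟨ρ, ?_, ?_, fun m => (hwv m).symm⟩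
  · intro y
    set P : Polynomial ℂ := Lagrange.interpolate Finset.univ (fun a => pts q a 0)
      (fun a => (h *ᵥ y) a / u a) with hP
    refine ⟨Polynomial.aeval (X 0 : R3) P, ?_⟩
    rw [hρ]
    have h4 : (fun a => eval (pts q a) (Polynomial.aeval (X 0 : R3) P) * u a) = h *ᵥ y := by
      funext a
      have h5 : eval (pts q a) (Polynomial.aeval (X 0 : R3) P) = P.eval (pts q a 0) := by
        rw [Polynomial.aeval_def, Polynomial.hom_eval₂, eval_X]
        have : (eval (pts q a)).comp (algebraMap ℂ R3) = RingHom.id ℂ := by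
          ext
          simp
        rw [this]
        rfl
      rw [h5, hP, Lagrange.eval_interpolate_at_node _ (fun x _ y _ hxy => hinj0 hxy)
        (Finset.mem_univ a), div_mul_cancel₀ _ (hu0 a)]
    rw [h4, mulVec_mulVec, hgh, one_mulVec]
  · intro f
    rw [hρ, mem_vanishingIdeal_iff]
    constructor
    · intro hf
      have h4 : (fun a => eval (pts q a) f * u a) = 0 := by
        have := congrArg (fun y => h *ᵥ y) hf
        simpa only [mulVec_mulVec, hhg, one_mulVec, mulVec_zero] using this
      rintro _ ⟨a, rfl⟩
      have h5 := congrFun h4 a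
      exact (mul_eq_zero.mp h5).resolve_right (hu0 a)
    · intro hf
      have h4 : (fun a => eval (pts q a) f * u a) = 0 := by
        funext a
        have : eval (pts q a) f = 0 := hf _ ⟨a, rfl⟩
        rw [this, zero_mul]
        rfl
      rw [h4, mulVec_zero]

end

end Pool.Agent.HilbPts
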