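import Pool.Agent.Lib.MP_ac4d2b_ag_HF.PresA
import Pool.Agent.Lib.MP_ac4d2b_ag_HF.PresB

/-!
MP_ac4d2b_ag: the Hilbert scheme of `n ≤ 12` points of affine space is irreducible and the locus of
distinct points is dense.
-/

set_option autoImplicit false

namespace Pool.Agent.HilbPts

open MvPolynomial Pool.Agent.MPac4d2b Pool.Agent.MPac4d2b.IRRAux Matrix

noncomputable section

/-- Every ideal of colength `n` lies in a chart. -/
theorem exists_chart {n : ℕ} (hn : n ≠ 0) (I : Hilb n) : ∃ e, I ∈ chart e := by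
  classical
  have : FiniteDimensional ℂ (R3 ⧸ I.1) := Module.finite_of_finrank_pos (by
    rw [I.2]
    exact Nat.pos_of_ne_zero hn)
  have hsp : Submodule.span ℂ (Set.range (cls I.1)) = ⊤ := by
    rw [eq_top_iff]
    intro y _
    obtain ⟨f, rfl⟩ := Ideal.Quotient.mk_surjective y
    rw [f.as_sum, map_sum]
    refine Submodule.sum_mem _ fun m _ => ?_
    have h1 : (monomial m (coeff m f) : R3) = coeff m f • monomial m 1 := by
      rw [smul_monomial, smul_eq_mul, mul_one]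
    rw [h1]
    have h2 : Ideal.Quotient.mk I.1 (coeff m f • monomial m 1) = coeff m f • cls I.1 m := rfl
    rw [h2]
    exact Submodule.smul_mem _ _ (Submodule.subset_span ⟨m, rfl⟩)
  obtain ⟨s, hs1, hs2, hs3⟩ := exists_linearIndependent ℂ (Set.range (cls I.1))
  rw [hsp] at hs2
  let b : Module.Basis s ℂ (R3 ⧸ I.1) := Module.Basis.mk hs3 (by
    rw [Subtype.range_coe, hs2])
  have : Fintype s := FiniteDimensional.fintypeBasisIndex b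
  have hcard : Fintype.card s = n := by
    rw [← Module.finrank_eq_card_basis b, I.2]
  let ε : s ≃ Fin n := Fintype.equivFinOfCardEq hcard
  choose m hm using fun y : s => hs1 y.2
  refine ⟨fun a => m (ε.symm a), b.reindex ε, fun a => ?_⟩
  rw [Module.Basis.reindex_apply, Module.Basis.mk_apply, hm]

theorem dn_of_Phi {n : ℕ} (f : MvPolynomial (Idx n) ℂ) (p : Idx n → ℂ) (hp : Dn (mt p))
    (hf : eval p f ≠ 0) : Phi f ≠ 0 := fun h => hf (vanish_of_Phi f h p hp)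

/-- **Key statement.** Given two ideals of colength `n ≤ 12` in two charts and two polynomials in
the coordinates not vanishing at them, there are `n` distinct points whose ideal lies in both charts and
at which both polynomials do not vanish. -/
theorem key {n : ℕ} (hn : n ≤ 12) (I₁ I₂ : Hilb n) (e₁ e₂ : Fin n → Fin 3 →₀ ℕ)
    (h₁ : I₁ ∈ chart e₁) (h₂ : I₂ ∈ chart e₂)
    (c₁ c₂ : (Fin 3 →₀ ℕ) × Fin n → ℂ) (hc₁ : IsCoords e₁ I₁ c₁) (hc₂ : IsCoords e₂ I₂ c₂)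
    (f₁ f₂ : MvPolynomial ((Fin 3 →₀ ℕ) × Fin n) ℂ) (hf₁ : eval c₁ f₁ ≠ 0)
    (hf₂ : eval c₂ f₂ ≠ 0) :
    ∃ J ∈ distinctLocus n, J ∈ chart e₁ ∧ J ∈ chart e₂ ∧
      (∃ d, IsCoords e₁ J d ∧ eval d f₁ ≠ 0) ∧ ∃ d, IsCoords e₂ J d ∧ eval d f₂ ≠ 0 := by
  classical
  obtain ⟨b₁, hb₁⟩ := h₁
  obtain ⟨b₂, hb₂⟩ := h₂
  obtain ⟨p₁, hp₁, hD₁, hdet₁⟩ := exists_pres hn I₁.1 e₁ b₁ hb₁
  obtain ⟨p₂, hp₂, hD₂, hdet₂⟩ := exists_pres hn I₂.1 e₂ b₂ hb₂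
  obtain ⟨G₁, N₁, hG₁⟩ := clear_den e₁ f₁
  obtain ⟨G₂, N₂, hG₂⟩ := clear_den e₂ f₂
  have hcr₁ := (hp₁.coords e₁ hdet₁ c₁).1 hc₁
  have hcr₂ := (hp₂.coords e₂ hdet₂ c₂).1 hc₂
  have hg₁ : eval p₁ G₁ ≠ 0 := by
    rw [hG₁ p₁ hdet₁, ← hcr₁]
    exact mul_ne_zero (pow_ne_zero _ hdet₁) hf₁
  have hg₂ : eval p₂ G₂ ≠ 0 := by
    rw [hG₂ p₂ hdet₂, ← hcr₂]
    exact mul_ne_zero (pow_ne_zero _ hdet₂) hf₂
  have hP₁ := dn_of_Phi G₁ p₁ hD₁ hg₁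
  have hP₂ := dn_of_Phi G₂ p₂ hD₂ hg₂
  have hQ₁ := dn_of_Phi (wmG e₁).det p₁ hD₁ (by rwa [eval_det'])
  have hQ₂ := dn_of_Phi (wmG e₂).det p₂ hD₂ (by rwa [eval_det'])
  have hne : bad (K := ℂ) (ι := Fin n) *
      (Phi G₁ * Phi G₂ * (Phi (wmG e₁).det * Phi (wmG e₂).det)) ≠ 0 :=
    mul_ne_zero bad_ne_zero (mul_ne_zero (mul_ne_zero hP₁ hP₂) (mul_ne_zero hQ₁ hQ₂))
  obtain ⟨q, hq⟩ : ∃ q, eval q (bad (K := ℂ) (ι := Fin n) *
      (Phi G₁ * Phi G₂ * (Phi (wmG e₁).det * Phi (wmG e₂).det))) ≠ 0 := by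
    by_contra hcon
    push Not at hcon
    exact hne (MvPolynomial.funext fun q => by rw [hcon q, map_zero])
  simp only [map_mul, ne_eq, mul_eq_zero, not_or] at hq
  obtain ⟨hbad, ⟨hq1, hq2⟩, hq3, hq4⟩ := hq
  rw [eval_Phi] at hq1 hq2 hq3 hq4
  change eval (pq q) _ ≠ 0 at hq1
  change eval (pq q) _ ≠ 0 at hq2
  change eval (pq q) _ ≠ 0 at hq3
  change eval (pq q) _ ≠ 0 at hq4
  rw [eval_det'] at hq3 hq4
  obtain ⟨hinj, hpres⟩ := pres_pts q hbad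
  obtain ⟨b, hb⟩ := hpres.basis e₁ hq3
  obtain ⟨b', hb'⟩ := hpres.basis e₂ hq4
  let J : Hilb n := ⟨vanishingIdeal ℂ (Set.range (pts q)), by
    rw [Module.finrank_eq_card_basis b, Fintype.card_fin]⟩
  refine ⟨J, ⟨Finset.univ.image (pts q), ?_, ?_⟩, ⟨b, hb⟩, ⟨b', hb'⟩, ?_, ?_⟩
  · rw [Finset.card_image_of_injective _ hinj, Finset.card_univ, Fintype.card_fin]
  · show vanishingIdeal ℂ (Set.range (pts q)) = _
    rw [Finset.coe_image, Finset.coe_univ, Set.image_univ]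
  · refine ⟨crd e₁ (pq q), (hpres.coords e₁ hq3 _).2 rfl, ?_⟩
    rw [hG₁ _ hq3] at hq1
    exact right_ne_zero_of_mul hq1
  · refine ⟨crd e₂ (pq q), (hpres.coords e₂ hq4 _).2 rfl, ?_⟩
    rw [hG₂ _ hq4] at hq2
    exact right_ne_zero_of_mul hq2

/-- Coordinates exist. -/
theorem exists_coords {n : ℕ} (e : Fin n → Fin 3 →₀ ℕ) (I : Hilb n) (h : I ∈ chart e) :
    ∃ c, IsCoords e I c := by
  obtain ⟨b, hb⟩ := h
  refine ⟨fun x => b.repr (cls I.1 x.1) x.2, fun m => ?_⟩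
  simp only [← hb]
  exact (b.sum_repr _).symm

theorem exists_separating {n : ℕ} (hn : n ≠ 0) (Z : Set (Hilb n)) (hZ : IsClosed Z) (I : Hilb n)
    (hI : I ∉ Z) : ∃ (e : Fin n → Fin 3 →₀ ℕ) (c : (Fin 3 →₀ ℕ) × Fin n → ℂ)
      (f : MvPolynomial ((Fin 3 →₀ ℕ) × Fin n) ℂ), I ∈ chart e ∧ IsCoords e I c ∧ eval c f ≠ 0 ∧
      ∀ J ∈ chart e, ∀ d, IsCoords e J d → eval d f ≠ 0 → J ∉ Z := by
  rw [isClosed_iff'] at hZ
  obtain ⟨e, he⟩ := exists_chart hn I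
  obtain ⟨c, hc⟩ := exists_coords e I he
  obtain ⟨S, hS⟩ := hZ e
  have h1 := (hS I he c hc).not.1 hI
  push Not at h1
  obtain ⟨f, hf, hf'⟩ := h1
  exact ⟨e, c, f, he, hc, hf', fun J hJ d hd hne hJZ => hne ((hS J hJ d hd).1 hJZ f hf)⟩

theorem two_open {n : ℕ} (hn0 : n ≠ 0) (hn : n ≤ 12) (u v : Set (Hilb n)) (hu : IsOpen u)
    (hv : IsOpen v) (hu' : u.Nonempty) (hv' : v.Nonempty) :
    ∃ J ∈ distinctLocus n, J ∈ u ∧ J ∈ v := by
  obtain ⟨I₁, hI₁⟩ := hu'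
  obtain ⟨I₂, hI₂⟩ := hv'
  obtain ⟨e₁, c₁, f₁, he₁, hc₁, hf₁, h₁⟩ :=
    exists_separating hn0 uᶜ (isClosed_compl_iff.2 hu) I₁ (fun h => h hI₁)
  obtain ⟨e₂, c₂, f₂, he₂, hc₂, hf₂, h₂⟩ :=
    exists_separating hn0 vᶜ (isClosed_compl_iff.2 hv) I₂ (fun h => h hI₂)
  obtain ⟨J, hJ, hJ₁, hJ₂, ⟨d₁, hd₁, hne₁⟩, d₂, hd₂, hne₂⟩ :=
    key hn I₁ I₂ e₁ e₂ he₁ he₂ c₁ c₂ hc₁ hc₂ f₁ f₂ hf₁ hf₂
  exact ⟨J, hJ, not_not.1 (h₁ J hJ₁ d₁ hd₁ hne₁), not_not.1 (h₂ J hJ₂ d₂ hd₂ hne₂)⟩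

theorem nonempty_hilb {n : ℕ} : Nonempty (Hilb n) := by
  classical
  obtain ⟨q, hq⟩ := exists_good (K := ℂ) (ι := Fin n)
  obtain ⟨hinj, ρ, hs, hk, hm⟩ := pres_pts q hq
  refine ⟨⟨vanishingIdeal ℂ (Set.range (pts q)), ?_⟩⟩
  have hker : LinearMap.ker ρ =
      (vanishingIdeal ℂ (Set.range (pts q))).restrictScalars ℂ := by
    ext f
    rw [LinearMap.mem_ker, hk]
    rfl
  have h1 := (ρ.quotKerEquivOfSurjective hs).finrank_eq
  rw [Module.finrank_fintype_fun_eq_card, Fintype.card_fin] at h1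
  exact (LinearEquiv.finrank_eq (Submodule.quotEquivOfEq _ _ hker)).symm.trans h1

/-- **Theorem.** For `1 ≤ n ≤ 12` the Hilbert scheme of `n` points of affine `3`-space is
irreducible, and the ideals of `n` distinct points are dense in it. -/
theorem hilb_irreducible {n : ℕ} (hn0 : n ≠ 0) (hn : n ≤ 12) :
    IrreducibleSpace (Hilb n) ∧ Dense (distinctLocus n) := by
  constructor
  · have : PreirreducibleSpace (Hilb n) := ⟨fun u v hu hv hu' hv' => by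
      rw [Set.univ_inter] at hu' hv'
      obtain ⟨J, -, h1, h2⟩ := two_open hn0 hn u v hu hv hu' hv'
      exact ⟨J, trivial, h1, h2⟩⟩
    have := nonempty_hilb (n := n)
    exact { toNonempty := inferInstance }
  · rw [dense_iff_inter_open]
    intro u hu hu'
    obtain ⟨J, hJ, h1, -⟩ := two_open hn0 hn u u hu hu hu' hu'
    exact ⟨J, h1, hJ⟩

end

end Pool.Agent.HilbPts
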