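import Mathlib
import Pool.Agent.Lib.MP_ac4d2b_ag.CLS
import Pool.Agent.Lib.MP_ac4d2b_ag.IRR

/-!
MP_ac4d2b_ag: the Hilbert scheme of `n` points of affine `3`-space as the space of ideals of
colength `n`, with its Zariski topology.
-/

set_option autoImplicit false

namespace Pool.Agent.HilbPts

open MvPolynomial

noncomputable section

/-- The coordinate ring of affine `3`-space. -/
abbrev R3 : Type := MvPolynomial (Fin 3) ℂ

/-- The closed points of the Hilbert scheme of `n` points of affine `3`-space: the ideals `I` of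
`ℂ[x, y, z]` with `dim ℂ[x, y, z] / I = n`. -/
def Hilb (n : ℕ) : Type := {I : Ideal R3 // Module.finrank ℂ (R3 ⧸ I) = n}

/-- The class of the monomial `x^m` modulo the ideal `I`. -/
def cls (I : Ideal R3) (m : Fin 3 →₀ ℕ) : R3 ⧸ I := Ideal.Quotient.mk I (monomial m 1)

/-- The chart of `n` monomials `x^(e 0), …, x^(e (n-1))`: the ideals of colength `n` modulo which
the classes of these monomials are a basis. -/
def chart {n : ℕ} (e : Fin n → Fin 3 →₀ ℕ) : Set (Hilb n) :=
  {I | ∃ b : Module.Basis (Fin n) ℂ (R3 ⧸ I.1), ∀ a, b a = cls I.1 (e a)}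

/-- `c` is the family of coordinates of `I` in the chart `e`: the coefficients `c (m, a)` with
`x^m = ∑ a, c (m, a) x^(e a)` modulo `I`. -/
def IsCoords {n : ℕ} (e : Fin n → Fin 3 →₀ ℕ) (I : Hilb n)
    (c : (Fin 3 →₀ ℕ) × Fin n → ℂ) : Prop :=
  ∀ m, cls I.1 m = ∑ a, c (m, a) • cls I.1 (e a)

/-- A set of ideals of colength `n` is Zariski closed if in every chart it is given by polynomial
equations in the coordinates of the chart. -/
def ZarClosed {n : ℕ} (Z : Set (Hilb n)) : Prop :=
  ∀ e : Fin n → Fin 3 →₀ ℕ, ∃ S : Set (MvPolynomial ((Fin 3 →₀ ℕ) × Fin n) ℂ),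
    ∀ I ∈ chart e, ∀ c, IsCoords e I c → (I ∈ Z ↔ ∀ f ∈ S, eval c f = 0)

/-- The Zariski topology. -/
instance (n : ℕ) : TopologicalSpace (Hilb n) :=
  TopologicalSpace.ofClosed {Z | ZarClosed Z}
    (by
      intro e
      refine ⟨{1}, fun I _ c _ => ?_⟩
      simp)
    (by
      intro A hA e
      choose! S hS using fun Z (hZ : Z ∈ A) => hA hZ e
      refine ⟨⋃ Z ∈ A, S Z, fun I hI c hc => ?_⟩
      simp only [Set.mem_sInter, Set.mem_iUnion, exists_prop, forall_exists_index, and_imp]
      constructor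
      · intro h f Z hZ hf
        exact (hS Z hZ I hI c hc).1 (h Z hZ) f hf
      · intro h Z hZ
        exact (hS Z hZ I hI c hc).2 fun f hf => h f Z hZ hf)
    (by
      intro A hA B hB e
      obtain ⟨S, hS⟩ := hA e
      obtain ⟨T, hT⟩ := hB e
      refine ⟨{h | ∃ f ∈ S, ∃ g ∈ T, h = f * g}, fun I hI c hc => ?_⟩
      rw [Set.mem_union, hS I hI c hc, hT I hI c hc]
      constructor
      · rintro (h | h) _ ⟨f, hf, g, hg, rfl⟩
        · rw [map_mul, h f hf, zero_mul]
        · rw [map_mul, h g hg, mul_zero]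
      · intro h
        by_contra hcon
        rw [not_or] at hcon
        obtain ⟨h1, h2⟩ := hcon
        push Not at h1 h2
        obtain ⟨f, hf, hf'⟩ := h1
        obtain ⟨g, hg, hg'⟩ := h2
        have := h (f * g) ⟨f, hf, g, hg, rfl⟩
        rw [map_mul] at this
        exact (mul_ne_zero hf' hg') this)

theorem isClosed_iff' {n : ℕ} (Z : Set (Hilb n)) : IsClosed Z ↔ ZarClosed Z := by
  rw [← isOpen_compl_iff]
  show ZarClosed Zᶜᶜ ↔ ZarClosed Z
  rw [compl_compl]

/-- The locus of `n` distinct points: the ideals of all polynomials which vanish on a set of `n`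
points. -/
def distinctLocus (n : ℕ) : Set (Hilb n) :=
  {I | ∃ P : Finset (Fin 3 → ℂ), P.card = n ∧ I.1 = vanishingIdeal ℂ (P : Set (Fin 3 → ℂ))}

end

end Pool.Agent.HilbPts
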