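import Pool.Agent.Lib.MP_ac4d2b_ag_HF.Hilb

/-!
MP_ac4d2b_ag: from commuting matrices to ideals.
-/

set_option autoImplicit false

namespace Pool.Agent.HilbPts

open MvPolynomial Pool.Agent.MPac4d2b Pool.Agent.MPac4d2b.IRRAux Matrix

noncomputable section

section

variable {n : ℕ}

/-- the space of parameters -/
abbrev Idx (n : ℕ) : Type := (Fin 3 × Fin n × Fin n) ⊕ Fin n

/-- `x^m` of the matrices of a point, applied to the vector of the point -/
def wv (p : Idx n → ℂ) (m : Fin 3 →₀ ℕ) : Fin n → ℂ :=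
  (mt p 0 ^ m 0 * mt p 1 ^ m 1 * mt p 2 ^ m 2) *ᵥ vc p

/-- the matrix with columns `wv p (e a)` -/
def wm (e : Fin n → Fin 3 →₀ ℕ) (p : Idx n → ℂ) : Matrix (Fin n) (Fin n) ℂ :=
  Matrix.of fun b a => wv p (e a) b

/-- the generic matrices -/
def gM (n : ℕ) (i : Fin 3) : Matrix (Fin n) (Fin n) (MvPolynomial (Idx n) ℂ) :=
  Matrix.of fun a b => X (Sum.inl (i, a, b))

/-- the generic version of `wv` -/
def wvG (m : Fin 3 →₀ ℕ) : Fin n → MvPolynomial (Idx n) ℂ :=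
  (gM n 0 ^ m 0 * gM n 1 ^ m 1 * gM n 2 ^ m 2) *ᵥ fun a => X (Sum.inr a)

/-- the generic version of `wm` -/
def wmG (e : Fin n → Fin 3 →₀ ℕ) : Matrix (Fin n) (Fin n) (MvPolynomial (Idx n) ℂ) :=
  Matrix.of fun b a => wvG (e a) b

theorem eval_gM (p : Idx n → ℂ) (i : Fin 3) : (eval p).mapMatrix (gM n i) = mt p i := by
  ext a b
  show eval p (X (Sum.inl (i, a, b))) = _
  rw [eval_X]
  rfl

theorem eval_wvG (p : Idx n → ℂ) (m : Fin 3 →₀ ℕ) (b : Fin n) :
    eval p (wvG m b) = wv p m b := by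
  have h : (eval p).mapMatrix (gM n 0 ^ m 0 * gM n 1 ^ m 1 * gM n 2 ^ m 2) =
      mt p 0 ^ m 0 * mt p 1 ^ m 1 * mt p 2 ^ m 2 := by
    rw [map_mul, map_mul, map_pow, map_pow, map_pow, eval_gM, eval_gM, eval_gM]
  have h' : wv p m b = ∑ j, eval p ((gM n 0 ^ m 0 * gM n 1 ^ m 1 * gM n 2 ^ m 2) b j) *
      p (Sum.inr j) := by
    rw [wv, ← h]
    rfl
  rw [h']
  show eval p (∑ j, (gM n 0 ^ m 0 * gM n 1 ^ m 1 * gM n 2 ^ m 2) b j * X (Sum.inr j)) = _
  rw [map_sum]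
  exact Finset.sum_congr rfl fun j _ => by rw [map_mul, eval_X]

theorem eval_wmG (p : Idx n → ℂ) (e : Fin n → Fin 3 →₀ ℕ) :
    (eval p).mapMatrix (wmG e) = wm e p := by
  ext a b
  exact eval_wvG p (e b) a

theorem eval_det' (p : Idx n → ℂ) (e : Fin n → Fin 3 →₀ ℕ) :
    eval p (wmG e).det = (wm e p).det := by
  rw [RingHom.map_det, eval_wmG]

theorem eval_cramer (p : Idx n → ℂ) (e : Fin n → Fin 3 →₀ ℕ) (m : Fin 3 →₀ ℕ) (a : Fin n) :
    eval p (((wmG e).adjugate *ᵥ wvG m) a) = ((wm e p).adjugate *ᵥ wv p m) a := by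
  have h : ∀ b, eval p ((wmG e).adjugate a b) = (wm e p).adjugate a b := by
    intro b
    rw [← eval_wmG, ← RingHom.map_adjugate]
    rfl
  simp only [mulVec, dotProduct, map_sum, map_mul, h, eval_wvG]

/-- the coordinates given by Cramer's rule -/
def crd (e : Fin n → Fin 3 →₀ ℕ) (p : Idx n → ℂ) : (Fin 3 →₀ ℕ) × Fin n → ℂ :=
  fun x => ((wm e p).adjugate *ᵥ wv p x.1) x.2 / (wm e p).det

/-- Clearing denominators. -/
theorem clear_den (e : Fin n → Fin 3 →₀ ℕ) (f : MvPolynomial ((Fin 3 →₀ ℕ) × Fin n) ℂ) :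
    ∃ (G : MvPolynomial (Idx n) ℂ) (N : ℕ), ∀ p, (wm e p).det ≠ 0 →
      eval p G = (wm e p).det ^ N * eval (crd e p) f := by
  induction f using MvPolynomial.induction_on with
  | C a => exact ⟨C a, 0, fun p _ => by simp⟩
  | add f g hf hg =>
    obtain ⟨F, N, hF⟩ := hf
    obtain ⟨G, M, hG⟩ := hg
    refine ⟨F * (wmG e).det ^ M + G * (wmG e).det ^ N, N + M, fun p hp => ?_⟩
    rw [map_add, map_mul, map_mul, map_pow, map_pow, eval_det', hF p hp, hG p hp, map_add]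
    ring
  | mul_X f x hf =>
    obtain ⟨F, N, hF⟩ := hf
    refine ⟨F * ((wmG e).adjugate *ᵥ wvG x.1) x.2, N + 1, fun p hp => ?_⟩
    rw [map_mul, eval_cramer, hF p hp, map_mul, eval_X, crd]
    field_simp
    ring

/-- The point `p` presents the ideal `I`: the map `f ↦ f(X) v` has kernel `I` and is onto. -/
def Pres (I : Ideal R3) (p : Idx n → ℂ) : Prop :=
  ∃ ρ : R3 →ₗ[ℂ] (Fin n → ℂ), Function.Surjective ρ ∧ (∀ f, ρ f = 0 ↔ f ∈ I) ∧
    ∀ m, ρ (monomial m 1) = wv p m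

theorem mulVec_sum' (M : Matrix (Fin n) (Fin n) ℂ) (c : Fin n → ℂ) (b : Fin n) :
    (M *ᵥ c) b = ∑ a, c a * M b a := by
  simp only [mulVec, dotProduct]
  exact Finset.sum_congr rfl fun a _ => mul_comm _ _

theorem wm_mulVec (e : Fin n → Fin 3 →₀ ℕ) (p : Idx n → ℂ) (c : Fin n → ℂ) :
    wm e p *ᵥ c = ∑ a, c a • wv p (e a) := by
  funext b
  rw [mulVec_sum', Finset.sum_apply]
  rfl

theorem Pres.rho_sum {p : Idx n → ℂ} {ρ : R3 →ₗ[ℂ] (Fin n → ℂ)}
    (hm : ∀ m, ρ (monomial m 1) = wv p m) (e : Fin n → Fin 3 →₀ ℕ) (c : Fin n → ℂ) :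
    ρ (∑ a, c a • monomial (e a) 1) = wm e p *ᵥ c := by
  rw [map_sum, wm_mulVec]
  exact Finset.sum_congr rfl fun a _ => by rw [map_smul, hm]

theorem mk_sum (I : Ideal R3) (e : Fin n → Fin 3 →₀ ℕ) (c : Fin n → ℂ) :
    Ideal.Quotient.mk I (∑ a, c a • monomial (e a) 1) = ∑ a, c a • cls I (e a) := by
  rw [map_sum]
  rfl

theorem adj_solve (M : Matrix (Fin n) (Fin n) ℂ) (hM : M.det ≠ 0) (w : Fin n → ℂ) :
    M *ᵥ (fun a => (M.adjugate *ᵥ w) a / M.det) = w := by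
  have h : (fun a => (M.adjugate *ᵥ w) a / M.det) = (M.det)⁻¹ • (M.adjugate *ᵥ w) := by
    funext a
    rw [Pi.smul_apply, smul_eq_mul, div_eq_inv_mul]
  rw [h, mulVec_smul, mulVec_mulVec, mul_adjugate, smul_mulVec, one_mulVec, smul_smul,
    inv_mul_cancel₀ hM, one_smul]

theorem inj_of_det (M : Matrix (Fin n) (Fin n) ℂ) (hM : M.det ≠ 0) {c d : Fin n → ℂ}
    (h : M *ᵥ c = M *ᵥ d) : c = d := by
  have h1 := congrArg (fun x => M⁻¹ *ᵥ x) h
  simp only [mulVec_mulVec] at h1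
  rwa [nonsing_inv_mul M (Ne.isUnit hM), one_mulVec, one_mulVec] at h1

/-- If `p` presents `I` and the determinant is not zero then `I` lies in the chart. -/
theorem Pres.basis {I : Ideal R3} {p : Idx n → ℂ} (h : Pres I p) (e : Fin n → Fin 3 →₀ ℕ)
    (hd : (wm e p).det ≠ 0) :
    ∃ b : Module.Basis (Fin n) ℂ (R3 ⧸ I), ∀ a, b a = cls I (e a) := by
  obtain ⟨ρ, hs, hk, hm⟩ := h
  have hli : LinearIndependent ℂ fun a => cls I (e a) := by
    rw [Fintype.linearIndependent_iff]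
    intro c hc
    rw [← mk_sum, Ideal.Quotient.eq_zero_iff_mem, ← hk, Pres.rho_sum hm] at hc
    have := inj_of_det (wm e p) hd (c := c) (d := 0) (by rw [hc, mulVec_zero])
    intro a
    rw [this]
    rfl
  have hsp : ⊤ ≤ Submodule.span ℂ (Set.range fun a => cls I (e a)) := by
    intro x _
    obtain ⟨f, rfl⟩ := Ideal.Quotient.mk_surjective x
    have h1 := adj_solve (wm e p) hd (ρ f)
    set c := fun a => ((wm e p).adjugate *ᵥ ρ f) a / (wm e p).det
    have h2 : Ideal.Quotient.mk I f = ∑ a, c a • cls I (e a) := by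
      rw [← mk_sum, Ideal.Quotient.eq, ← hk, map_sub, Pres.rho_sum hm, h1, sub_self]
    rw [h2]
    exact Submodule.sum_mem _ fun a _ =>
      Submodule.smul_mem _ _ (Submodule.subset_span ⟨a, rfl⟩)
  exact ⟨Module.Basis.mk hli hsp, fun a => Module.Basis.mk_apply hli hsp a⟩

/-- The coordinates of `I` in the chart are given by Cramer's rule. -/
theorem Pres.coords {I : Ideal R3} {p : Idx n → ℂ} (h : Pres I p) (e : Fin n → Fin 3 →₀ ℕ)
    (hd : (wm e p).det ≠ 0) (c : (Fin 3 →₀ ℕ) × Fin n → ℂ)  :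
    (∀ m, cls I m = ∑ a, c (m, a) • cls I (e a)) ↔ c = crd e p := by
  obtain ⟨ρ, hs, hk, hm⟩ := h
  have key : ∀ m, (cls I m = ∑ a, c (m, a) • cls I (e a)) ↔
      wv p m = wm e p *ᵥ fun a => c (m, a) := by
    intro m
    rw [← mk_sum, cls, Ideal.Quotient.eq, ← hk, map_sub,
      Pres.rho_sum hm e (fun a => c (m, a)), hm, sub_eq_zero]
  simp only [key]
  constructor
  · intro h
    funext x
    have h1 := adj_solve (wm e p) hd (wv p x.1)
    have h2 := inj_of_det (wm e p) hd (h1.trans (h x.1))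
    exact (congrFun h2 x.2).symm
  · rintro rfl m
    exact (adj_solve (wm e p) hd (wv p m)).symm

end

end

end Pool.Agent.HilbPts
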