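import Pool.Agent.Lib.MP_ac4d2b_ag_HF.Link

/-!
MP_ac4d2b_ag: every ideal of colength `n ≤ 12` is presented by a point of the closure.
-/

set_option autoImplicit false

namespace Pool.Agent.HilbPts

open MvPolynomial Pool.Agent.MPac4d2b Pool.Agent.MPac4d2b.IRRAux Matrix

noncomputable section

theorem mono_eq (m : Fin 3 →₀ ℕ) :
    (monomial m 1 : R3) = X 0 ^ m 0 * X 1 ^ m 1 * X 2 ^ m 2 := by
  rw [monomial_eq, C_1, one_mul, Finsupp.prod_fintype _ _ (fun i => pow_zero _),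
    Fin.prod_univ_three]

/-- Every ideal in a chart is presented by a point whose triple of matrices is a limit of
diagonalisable ones. -/
theorem exists_pres {n : ℕ} (hn : n ≤ 12) (I : Ideal R3) (e : Fin n → Fin 3 →₀ ℕ)
    (b : Module.Basis (Fin n) ℂ (R3 ⧸ I)) (hb : ∀ a, b a = cls I (e a)) :
    ∃ p : Idx n → ℂ, Pres I p ∧ Dn (mt p) ∧ (wm e p).det ≠ 0 := by
  classical
  have : FiniteDimensional ℂ (R3 ⧸ I) := Module.Finite.of_basis b
  let x : Fin 3 → R3 ⧸ I := fun i => Ideal.Quotient.mk I (X i)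
  let T : Fin 3 → Matrix (Fin n) (Fin n) ℂ := fun i => LinearMap.toMatrix b b (mulT ℂ x i)
  let p : Idx n → ℂ := Sum.elim (pt T) (b.repr 1)
  have hmt : mt p = T := rfl
  have hvc : vc p = b.repr 1 := rfl
  have hpow : ∀ (a₀ a₁ a₂ : ℕ), (mulT ℂ x 0 ^ a₀ * mulT ℂ x 1 ^ a₁ * mulT ℂ x 2 ^ a₂) 1 =
      x 0 ^ a₀ * x 1 ^ a₁ * x 2 ^ a₂ := by
    intro a₀ a₁ a₂
    have h1 : ∀ (i : Fin 3) (k : ℕ), (mulT ℂ x i ^ k : Module.End ℂ (R3 ⧸ I)) =
        LinearMap.mulLeft ℂ (x i ^ k) := by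
      intro i k
      show LinearMap.mulLeft ℂ (x i) ^ k = _
      rw [LinearMap.pow_mulLeft]
    rw [h1, h1, h1, Module.End.mul_apply, Module.End.mul_apply, LinearMap.mulLeft_apply,
      LinearMap.mulLeft_apply, LinearMap.mulLeft_apply, mul_one, mul_assoc]
  have hcls : ∀ m : Fin 3 →₀ ℕ, x 0 ^ m 0 * x 1 ^ m 1 * x 2 ^ m 2 = cls I m := by
    intro m
    rw [cls, mono_eq, map_mul, map_mul, map_pow, map_pow, map_pow]
  have hwv : ∀ m, wv p m = b.repr (cls I m) := by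
    intro m
    have h1 : mt p 0 ^ m 0 * mt p 1 ^ m 1 * mt p 2 ^ m 2 =
        LinearMap.toMatrix b b (mulT ℂ x 0 ^ m 0 * mulT ℂ x 1 ^ m 1 * mulT ℂ x 2 ^ m 2) := by
      rw [hmt, LinearMap.toMatrix_mul, LinearMap.toMatrix_mul]
      have h2 : ∀ (i : Fin 3) (k : ℕ), LinearMap.toMatrix b b (mulT ℂ x i ^ k) = T i ^ k :=
        fun i k => map_pow (LinearMap.toMatrixAlgEquiv b) (mulT ℂ x i) k
      rw [h2, h2, h2]
    rw [wv, h1, hvc, LinearMap.toMatrix_mulVec_repr, hpow, hcls]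
  refine ⟨p, ?_, ?_, ?_⟩
  · refine ⟨b.equivFun.toLinearMap ∘ₗ (Ideal.Quotient.mkₐ ℂ I).toLinearMap, ?_, ?_, ?_⟩
    · exact b.equivFun.surjective.comp (Ideal.Quotient.mkₐ_surjective ℂ I)
    · intro f
      show b.equivFun (Ideal.Quotient.mk I f) = 0 ↔ _
      rw [LinearEquiv.map_eq_zero_iff, Ideal.Quotient.eq_zero_iff_mem]
    · intro m
      rw [hwv]
      rfl
  · have hmain := main_le n hn (R3 ⧸ I) (mulT ℂ x) 1 ?_ ?_ ?_
    · rw [cl_iff b] at hmain
      exact hmain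
    · intro i j
      show LinearMap.mulLeft ℂ (x i) ∘ₗ LinearMap.mulLeft ℂ (x j) =
        LinearMap.mulLeft ℂ (x j) ∘ₗ LinearMap.mulLeft ℂ (x i)
      rw [← LinearMap.mulLeft_mul, ← LinearMap.mulLeft_mul, mul_comm]
    · unfold Cyc
      rw [eq_top_iff]
      intro y _
      obtain ⟨f, rfl⟩ := Ideal.Quotient.mk_surjective y
      rw [f.as_sum, map_sum]
      refine Submodule.sum_mem _ fun m _ => ?_
      have h1 : (monomial m (coeff m f) : R3) = coeff m f • monomial m 1 := by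
        rw [smul_monomial, smul_eq_mul, mul_one]
      rw [h1]
      have h2 : Ideal.Quotient.mk I (coeff m f • monomial m 1) = coeff m f • cls I m := rfl
      rw [h2]
      refine Submodule.smul_mem _ _ (Submodule.subset_span ⟨(m 0, m 1, m 2), ?_⟩)
      show (mulT ℂ x 0 ^ m 0 * mulT ℂ x 1 ^ m 1 * mulT ℂ x 2 ^ m 2) 1 = _
      rw [hpow, hcls]
    · rw [Module.finrank_eq_card_basis b, Fintype.card_fin]
  · have h1 : wm e p = 1 := by
      ext a c
      show wv p (e c) a = _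
      rw [hwv, ← hb, b.repr_self, Finsupp.single_apply, Matrix.one_apply]
      simp only [eq_comm]
    rw [h1, det_one]
    exact one_ne_zero

end

end Pool.Agent.HilbPts
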